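import Pool.Agent.Helper11_ProdFree.Main

open MeasureTheory

/-- **Product-free subsets of the unit interval.**  Let `A` be a Lebesgue measurable subset of
`[0, 1]` which is product-free: there are no `x`, `y`, `z` in `A` with `x * y = z`.  Then the
Lebesgue measure of `A` is less than `1 / 3`, and it is at most `s / (1 + s + s ^ 2)`, where `s`
is the supremum of `A`.

In particular every open set `A ⊆ [0, 1]` of measure greater than `1 / 3` contains `x`, `y`, `z`
with `x * y = z`. -/
theorem Pool.Agent.Results.MP_56a44b_nt.ProductFree.result (A : Set ℝ)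
    (hA : A ⊆ Set.Icc 0 1) (hm : NullMeasurableSet A volume)
    (hpf : ¬ ∃ x ∈ A, ∃ y ∈ A, ∃ z ∈ A, x * y = z) :
    volume A < 1 / 3 ∧
      volume A ≤ ENNReal.ofReal (sSup A / (1 + sSup A + sSup A ^ 2)) := by
  have h : ∀ x ∈ A, ∀ y ∈ A, x * y ∉ A := fun x hx y hy hxy =>
    hpf ⟨x, hx, y, hy, x * y, hxy, rfl⟩
  exact (Pool.Agent.Helper11_ProdFree.main hA hm h).symm
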